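import Pool.Agent.Lib.MP_5ea425_an.Blocks

set_option autoImplicit false

namespace Pool.Agent.Lib.MP_5ea425_an.Old.ComplementedLp

open Pool.Agent.Lib.MP_5ea425_an

/-- Every separable Banach space with uniformly complemented copies of `ℓ_p^n` for some
`1 ≤ p ≤ ∞` has a Lipschitz equivalence, as close to the identity as we like, that maps an
Aronszajn null set onto a set with Aronszajn null complement. -/
theorem result (p : ENNReal) [Fact (1 ≤ p)] (X : Type) [NormedAddCommGroup X] [NormedSpace ℝ X]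
    [CompleteSpace X] [TopologicalSpace.SeparableSpace X] [MeasurableSpace X] [BorelSpace X]
    (h : UnifCompl p X) :
    ¬ FiniteDimensional ℝ X ∧ ∀ ε : NNReal, 0 < ε →
      ∃ (A : Set X) (T : X ≃ X) (K L : NNReal), LipschitzWith K T ∧ LipschitzWith L T.symm ∧
        LipschitzWith ε (fun x => T x - x) ∧ AronszajnNull A ∧ AronszajnNull (T '' A)ᶜ := by
  refine ⟨h.not_finite, fun ε hε => ?_⟩
  obtain ⟨k, hk⟩ := exists_nat_one_div_lt (NNReal.coe_pos.2 hε)
  obtain ⟨A, T, K, L, h1, h2, h3, h4⟩ := h.main k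
  refine ⟨A, T, K, L, h1, h2, LipschitzWith.of_dist_le_mul fun x y => ?_, h4⟩
  rw [dist_eq_norm, dist_eq_norm]
  refine (h3 x y).trans (mul_le_mul_of_nonneg_right ?_ (norm_nonneg _))
  linarith [ε.coe_nonneg]

end Pool.Agent.Lib.MP_5ea425_an.Old.ComplementedLp
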