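import Pool.Agent.Lib.MP_5ea425_an.Smooth.Main

set_option autoImplicit false

namespace Pool.Agent.Lib.MP_5ea425_an.Old.SmoothHilbert

open Pool.Agent.Lib.MP_5ea425_an

/-- Separable infinite-dimensional Hilbert space has an infinitely smooth Lipschitz equivalence,
with infinitely smooth inverse and as close to the identity in the `C^k` norm as we like, that maps
an Aronszajn null set onto a set with Aronszajn null complement. -/
theorem result (H : Type) [NormedAddCommGroup H] [InnerProductSpace ℝ H] [CompleteSpace H]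
    [TopologicalSpace.SeparableSpace H] [MeasurableSpace H] [BorelSpace H]
    (hH : ¬ FiniteDimensional ℝ H) (k : ℕ) (ε : ℝ) (hε : 0 < ε) :
    ∃ (A : Set H) (T : H ≃ H) (K L : NNReal), LipschitzWith K T ∧ LipschitzWith L T.symm ∧
      (∀ n : ℕ, ContDiff ℝ n T) ∧ (∀ n : ℕ, ContDiff ℝ n T.symm) ∧
      (∀ i ≤ k, ∀ x, ‖iteratedFDeriv ℝ i (fun x => T x - x) x‖ ≤ ε) ∧
      AronszajnNull A ∧ AronszajnNull (T '' A)ᶜ := by
  obtain ⟨e, U, V, T, A, h1, h2, h3, h4, h5, h6, h7, h8, h9, h10⟩ := Smooth.main hH (k + 1)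
    (δ := min (ε / 2) 1) (by positivity) (min_le_right _ _)
  have l : ∀ W : H → H, ContDiff ℝ ((⊤ : ℕ∞) : WithTop ℕ∞) W →
      (∀ x, ‖iteratedFDeriv ℝ 1 W x‖ ≤ min (ε / 2) 1) → LipschitzWith 1 W := fun W a b =>
    lipschitzWith_of_nnnorm_fderiv_le (𝕜 := ℝ) (a.differentiable (by simp)) fun x =>
      NNReal.coe_le_coe.1 ((norm_iteratedFDeriv_one _).symm.trans_le
        ((b x).trans (min_le_right _ _)))
  have l1 := l U h2 (h4 1 (by omega))
  have l2 := l V h3 (h5 1 (by omega))
  have e1 : (T : H → H) = fun x => x + U x + V x := funext h6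
  have e2 : (T.symm : H → H) = fun z => z - U z - V (z - U z) := funext h7
  have e3 : (fun x => T x - x) = fun x => U x + V x := funext fun x => by
    rw [h6]
    abel
  have e4 : innerSL ℝ e e ≠ 0 := by simp [h1]
  refine ⟨A, T, _, _, e1 ▸ (LipschitzWith.id.add l1).add l2,
    e2 ▸ (LipschitzWith.id.sub l1).sub (l2.comp (LipschitzWith.id.sub l1)),
    contDiff_infty.1 (e1 ▸ (contDiff_id.add h2).add h3),
    contDiff_infty.1 (e2 ▸ (contDiff_id.sub h2).sub (h3.comp (contDiff_id.sub h2))),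
    fun i hi x => ?_, null_of_lines _ e4 h8 fun y v a b => (h10 y v a b).1,
    null_of_lines _ e4 h9 fun y v a b => (h10 y v a b).2⟩
  rw [e3, fun_iteratedFDeriv_add_apply (contDiff_infty.1 h2 i).contDiffAt
    (contDiff_infty.1 h3 i).contDiffAt]
  linarith [norm_add_le (iteratedFDeriv ℝ i U x) (iteratedFDeriv ℝ i V x), h4 i (by omega) x,
    h5 i (by omega) x, min_le_left (ε / 2) 1]

end Pool.Agent.Lib.MP_5ea425_an.Old.SmoothHilbert
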